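import Mathlib
import Pool.Agent.W751.CV.Stm

/-!
# Project CV (MP_28f8a1_an): the mean square norm
-/

set_option autoImplicit false
set_option maxHeartbeats 4000000

open Polynomial Filter Topology MeasureTheory

namespace Pool.Agent.W82.CV

open Pool.Agent.W751.CD Pool.Agent.W751.CV

lemma eval_P {N : ℕ} (z : Fin N → ℂ) (w : ℂ) : (P z).eval w = ∏ i, (w - z i) := by
  simp [P, Polynomial.eval_prod]

lemma vd_cons {N : ℕ} (w : ℂ) (z : Fin N → ℂ) :
    vd (Fin.cons w z : Fin (N + 1) → ℂ) = ‖(P z).eval w‖ ^ 2 * vd z := by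
  unfold vd
  rw [Matrix.det_vandermonde, Matrix.det_vandermonde, Fin.prod_univ_succ, norm_mul, mul_pow,
    Fin.prod_Ioi_zero, eval_P]
  congr 1
  · congr 1
    rw [norm_prod, norm_prod]
    refine Finset.prod_congr rfl fun i _ => ?_
    simp only [Fin.cons_succ, Fin.cons_zero]
    exact norm_sub_rev _ _
  · congr 2
    refine Finset.prod_congr rfl fun i _ => ?_
    rw [Fin.prod_Ioi_succ]
    simp only [Fin.cons_succ]

lemma continuous_vd (N : ℕ) : Continuous (fun z : Fin N → ℂ => vd z) := by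
  unfold vd
  simp only [Matrix.det_vandermonde]
  fun_prop

lemma continuous_eval (N : ℕ) :
    Continuous (fun p : (Fin N → ℂ) × ℂ => ‖(P p.1).eval p.2‖ ^ 2) := by
  simp only [eval_P]
  fun_prop

instance instFin (ρ : ℝ) : IsFiniteMeasure (mD ρ) := by
  unfold mD
  refine ⟨?_⟩
  rw [Measure.restrict_apply MeasurableSet.univ, Set.univ_inter]
  exact measure_closedBall_lt_top

lemma mu_univ_succ (ρ : ℝ) (N : ℕ) : mu ρ (N + 1) Set.univ =
    ∫⁻ z, (∫⁻ w, ENNReal.ofReal (‖(P z).eval w‖ ^ 2) ∂(mD ρ)) ∂(mu ρ N) := by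
  have hm1 : Measurable fun z : Fin (N + 1) → ℂ => ENNReal.ofReal (vd z) :=
    (continuous_vd (N + 1)).measurable.ennreal_ofReal
  have hm0 : Measurable fun z : Fin N → ℂ => ENNReal.ofReal (vd z) :=
    (continuous_vd N).measurable.ennreal_ofReal
  have hm2 : Measurable fun p : (Fin N → ℂ) × ℂ => ENNReal.ofReal (‖(P p.1).eval p.2‖ ^ 2) :=
    (continuous_eval N).measurable.ennreal_ofReal
  have hm3 : Measurable fun z : Fin N → ℂ =>
      ∫⁻ w, ENNReal.ofReal (‖(P z).eval w‖ ^ 2) ∂(mD ρ) :=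
    Measurable.lintegral_prod_right' (ν := mD ρ) hm2
  have h1 : mu ρ (N + 1) Set.univ =
      ∫⁻ z, ENNReal.ofReal (vd z) ∂(Measure.pi fun _ : Fin (N + 1) => mD ρ) := by
    unfold mu
    rw [withDensity_apply _ MeasurableSet.univ, Measure.restrict_univ]
  have h2 : ∫⁻ z, (∫⁻ w, ENNReal.ofReal (‖(P z).eval w‖ ^ 2) ∂(mD ρ)) ∂(mu ρ N) =
      ∫⁻ z, ENNReal.ofReal (vd z) * (∫⁻ w, ENNReal.ofReal (‖(P z).eval w‖ ^ 2) ∂(mD ρ))
        ∂(Measure.pi fun _ : Fin N => mD ρ) := by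
    unfold mu
    rw [lintegral_withDensity_eq_lintegral_mul _ hm0 hm3]
    rfl
  rw [h1, h2]
  have hmp := measurePreserving_piFinSuccAbove (fun _ : Fin (N + 1) => mD ρ) 0
  have h3 : ∫⁻ z, ENNReal.ofReal (vd z) ∂(Measure.pi fun _ : Fin (N + 1) => mD ρ) =
      ∫⁻ p : ℂ × (Fin N → ℂ), ENNReal.ofReal (vd (Fin.cons p.1 p.2 : Fin (N + 1) → ℂ))
        ∂((mD ρ).prod (Measure.pi fun _ : Fin N => mD ρ)) := by
    have h4 := hmp.lintegral_comp_emb (MeasurableEquiv.measurableEmbedding _)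
      (fun p : ℂ × (Fin N → ℂ) => ENNReal.ofReal (vd (Fin.cons p.1 p.2 : Fin (N + 1) → ℂ)))
    rw [← h4]
    refine lintegral_congr fun z => ?_
    congr 2
    funext i
    refine Fin.cases ?_ (fun j => ?_) i
    · rfl
    · rfl
  rw [h3]
  have hm4 : Measurable fun p : ℂ × (Fin N → ℂ) =>
      ENNReal.ofReal (vd (Fin.cons p.1 p.2 : Fin (N + 1) → ℂ)) := by
    have : (fun p : ℂ × (Fin N → ℂ) =>
      ENNReal.ofReal (vd (Fin.cons p.1 p.2 : Fin (N + 1) → ℂ))) =
      fun p : ℂ × (Fin N → ℂ) => ENNReal.ofReal (‖(P p.2).eval p.1‖ ^ 2 * vd p.2) := by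
      funext p
      rw [vd_cons]
    rw [this]
    refine Measurable.ennreal_ofReal ?_
    refine Measurable.mul ?_ ?_
    · exact (continuous_eval N).measurable.comp measurable_swap
    · exact (continuous_vd N).measurable.comp measurable_snd
  rw [lintegral_prod_symm _ hm4.aemeasurable]
  refine lintegral_congr fun z => ?_
  rw [← lintegral_const_mul]
  · refine lintegral_congr fun w => ?_
    rw [vd_cons, mul_comm, ENNReal.ofReal_mul (by unfold vd; positivity)]
  · exact hm2.comp (measurable_const.prodMk measurable_id)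

theorem l2_holds : S_L2 := by
  intro hZ ρ N hρ
  rw [← mu_univ_succ, (hZ ρ (N + 1) hρ).1]
  congr 1
  unfold ZN hk
  rw [Finset.prod_range_succ, Nat.factorial_succ]
  push_cast
  have : (N : ℝ) + 1 ≠ 0 := by positivity
  field_simp

end Pool.Agent.W82.CV
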